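import Pool.Agent.Q217.PR.Main

/-!
# MP_5eff62_lc: projections of points of dimension greater than one are random

Both questions are answered positively: if the effective dimension of the point `(x₁, x₂)` of the
plane is greater than one and the direction `(cos 2πθ, sin 2πθ)` is Martin-Löf random relative to
the point, then the projection is Martin-Löf random, even relative to the direction.
-/

set_option autoImplicit false

namespace Pool.Agent.Results.MP_5eff62_lc.RandomProjections

open Pool.Agent.Helper227 Q217.KT Q217.PR

/-- Let `U` be an optimal prefix-free machine and let `(x₁, x₂)` be a point of the plane of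
effective dimension greater than one. If `θ` is Martin-Löf random relative to `(x₁, x₂)` then the
projection `cos (2πθ) x₁ + sin (2πθ) x₂` is Martin-Löf random, and it is Martin-Löf random even
relative to `θ`. -/
theorem result (U : List Bool →. List Bool) (hU : OptimalPrefixFree U) (x₁ x₂ θ : ℝ)
    (hx : 1 < edim U x₁ x₂) (hθ : MLR (join (bin x₁) (bin x₂)) (bin θ)) :
    MLR (fun _ => false)
      (bin (Real.cos (2 * Real.pi * θ) * x₁ + Real.sin (2 * Real.pi * θ) * x₂)) ∧
    MLR (bin θ)
      (bin (Real.cos (2 * Real.pi * θ) * x₁ + Real.sin (2 * Real.pi * θ) * x₂)) := by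
  have h := main hU hx hθ
  exact ⟨MLR.mono (tLe_zero (bin θ)) h, h⟩

end Pool.Agent.Results.MP_5eff62_lc.RandomProjections
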